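import Mathlib
import Pool.Graph.R_seed8.TH112.BW.Clus

/-!
# PROJECT CT: linear cover time of the time-biased walk on graphs with comparable balls (MP_10effd_pr)

Goal (`S_FINAL`): for every bias `ε`, degree bound `Δ` and `K` there is `C` such that on every connected
graph with degrees at most `Δ` and `|B(x, r)| ≤ K |B(y, K r)|` for all `x, y, r` (for example on every
vertex-transitive graph, `K = 1`) the time-biased walk has cover time at most `C n`.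

The library modules `Pool.Graph.R_seed8.TH112.BW.{Pot,Val,Dfs,Off,Clus}` contain the potential theory
(`lap, dg, tot, FlowLe, exists_hit, exists_prob, Res`) and the value iteration (`J, J_step, J_comp, J_anti,
J_hit, Dt, Adm`); the namespace is `Pool.Agent.TH112.BW`.
-/

set_option autoImplicit false
set_option linter.unusedSectionVars false

namespace Pool.Agent.H576.CT

open Finset Pool.Agent.TH112.BW

/-- the ball of radius `r` around `x` -/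
noncomputable def ball {V : Type} [Fintype V] (G : SimpleGraph V) (x : V) (r : ℕ) : Finset V :=
  univ.filter (fun y => G.dist x y ≤ r)

/-- DROP. One stage of covering `B` in cycles around `o`, stopped at the first return to `o` at which fewer than
`K0` vertices of `B` are unvisited. PROOF (copy and simplify `J_cycle` and `J_mode` of `Val.lean`): let
`h` be from `exists_hit` (hitting `o`), `q v` from `exists_prob` for `v ∈ B \ S`, `g = tot * R`; as in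
`J_mode`, `Res G w v o R` applied to `q v` gives `tot ≤ g * (w o * ∑ w y * q v y)`. For a state `(x, S')` with
`S ⊆ S'`, `x ∈ S'`, put `A = B \ S'` and `Pot A x = h x + (g / K0) * (A.card - ∑ v ∈ A, q v x) ≥ 0`. Claim
(induction on `k`): `J k x S' ≤ Pot A x`. Use `J_step` with the function `Pot A`: for a neighbour `y` the
state `(y, insert y S')` has the set `A.erase y`, and `Pot (A.erase y) y = Pot A y` because `q y y = 1`
(if `y ∈ A`). `lap` at `x ≠ o`: `lap h = dg`, `lap (q v) = 0` (`x ∉ A` since `x ∈ S'`). At `x = o`: if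
`A.card < K0` the target is reached; otherwise `w o * (lap (Pot A) o - dg o) ≥ - tot + (g / K0) * A.card * tot / g ≥ 0`
(in the form `K0 * tot ≤ A.card * tot ≤ g * ∑ v ∈ A, w o * ∑ w y * q v y`). At `(o, S)` the value is
`(g / K0) * (B \ S).card` since `h o = 0`, `q v o = 0`. -/
def S_DROP : Prop :=
  ∀ (V : Type) [Fintype V] [DecidableEq V] (G : SimpleGraph V) [DecidableRel G.Adj] (ε : ℝ),
    0 ≤ ε → ε ≤ 1 → ∀ (hN : ∀ x, (G.neighborFinset x).Nonempty), G.Connected →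
    ∀ (w : V → ℝ), Adm G ε w → ∀ (o : V) (R : ℝ), 0 ≤ R → ∀ (B S : Finset V), o ∈ S →
    (∀ v ∈ B \ S, Res G w v o R) → ∀ K0 : ℕ, 1 ≤ K0 → ∀ k : ℕ,
    J G ε hN (fun x S' => x = o ∧ S ⊆ S' ∧ (B \ S').card < K0) k o S
      ≤ tot G w * R * ((B \ S).card / K0)

/-- COVER. Covering a block `B` from the centre `o` in stages: in stage `s` at most `N0 / E ^ s` vertices are
unvisited. PROOF from DROP: claim for `s` from `N0 + 1` down to `0`: for all `S ∋ o` with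
`(B \ S).card * E ^ s ≤ N0`, `J (Dt o (S ∪ B)) k o S ≤ E * R * ∑ i ∈ Ico s (N0+1), T i`. For `s = N0 + 1`
(or if `B \ S = ∅`) the target is reached (`E ^ s > N0`; `J` is `0` at a target state: `J_succ_pos`, `J_zero`).
Step: take `w` for `A = B \ S`, `K0 = N0 / E ^ (s+1) + 1` (natural division), so that `(B \ S').card < K0` gives
`(B \ S').card * E ^ (s+1) ≤ N0`, and `(B \ S).card ≤ E * K0`; DROP gives at most `T s * R * E`; compose with
`J_comp` (target `D1` of DROP); for the states `(o, S')` of `D1`: `J (Dt o (S ∪ B)) k o S' ≤ J (Dt o (S' ∪ B)) k o S'`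
by `J_anti`, then induction. -/
def S_COVER : Prop :=
  ∀ (V : Type) [Fintype V] [DecidableEq V] (G : SimpleGraph V) [DecidableRel G.Adj] (ε : ℝ),
    0 ≤ ε → ε ≤ 1 → ∀ (hN : ∀ x, (G.neighborFinset x).Nonempty), G.Connected →
    ∀ (o : V) (R : ℝ), 0 ≤ R → ∀ (B : Finset V) (E N0 : ℕ), 2 ≤ E → B.card ≤ N0 →
    ∀ T : ℕ → ℝ, (∀ s, 0 ≤ T s) →
    (∀ (s : ℕ) (A : Finset V), A ⊆ B → o ∉ A → A.Nonempty → A.card * E ^ s ≤ N0 →
      ∃ w : V → ℝ, Adm G ε w ∧ (∀ v ∈ A, Res G w v o R) ∧ tot G w ≤ T s) →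
    ∀ (k : ℕ) (S : Finset V), o ∈ S →
    J G ε hN (Dt o (S ∪ B)) k o S ≤ E * R * ∑ s ∈ range (N0 + 1), T s

/-- MOVE. PROOF: `exists_hit` at `u` gives `h`, `J_hit` gives `J (Dt u (insert u S)) k o S ≤ h o`, and `Res G w u o R`
applied to `h` (flow at most `tot`, `h u = 0`) gives `h o ≤ R * tot`; `J_anti` to pass to `Dt u S`. This is
stage 3 of `J_mode`. -/
def S_MOVE : Prop :=
  ∀ (V : Type) [Fintype V] [DecidableEq V] (G : SimpleGraph V) [DecidableRel G.Adj] (ε : ℝ),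
    0 ≤ ε → ε ≤ 1 → ∀ (hN : ∀ x, (G.neighborFinset x).Nonempty), G.Connected →
    ∀ (w : V → ℝ), Adm G ε w → ∀ (o u : V) (R : ℝ), 0 ≤ R → Res G w u o R →
    ∀ (k : ℕ) (S : Finset V), o ∈ S → J G ε hN (Dt u S) k o S ≤ R * tot G w

/-- TOUR. PROOF. (1) There is a walk of `H` from `a0` to `a0` of length at most `2 * P.card` whose support contains
all of `P`: grow a set `Q ∋ a0` inside `P` with a closed walk of length `≤ 2 (Q.card - 1)` whose support contains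
`Q`; if `Q ≠ P` there are `p ∈ Q` and `q ∈ P \ Q` with `H.Adj p q` (walk in `H` from `a0` to a vertex
of `P \ Q`; the walk stays in `P` because edges of `H` do); insert `p → q → p` at a visit of `p`
(`Walk.takeUntil`, `Walk.dropUntil`). (2) Cost along a walk `p` of `H` from `a` to `c`, by induction:
`J (Dt c (S ∪ p.support.toFinset.biUnion B)) k a S ≤ (p.length + 1) * c1 + p.length * c2` for `a ∈ S`: first cover
`B a` (`hcov`), then move to the next vertex (`hmov`), then induction, with `J_comp` and `J_anti`. (3) The closed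
walk has length `≤ 2 (P.card - 1)`, so the cost is at most `2 * P.card * (c1 + c2)`. -/
def S_TOUR : Prop :=
  ∀ (V : Type) [Fintype V] [DecidableEq V] (G : SimpleGraph V) [DecidableRel G.Adj] (ε : ℝ),
    0 ≤ ε → ε ≤ 1 → ∀ (hN : ∀ x, (G.neighborFinset x).Nonempty),
    ∀ (P : Finset V) (B : V → Finset V) (H : SimpleGraph V) (c1 c2 : ℝ), 0 ≤ c1 → 0 ≤ c2 →
    (∀ a ∈ P, ∀ (k : ℕ) (S : Finset V), a ∈ S → J G ε hN (Dt a (S ∪ B a)) k a S ≤ c1) →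
    (∀ a a', H.Adj a a' → ∀ (k : ℕ) (S : Finset V), a ∈ S → J G ε hN (Dt a' S) k a S ≤ c2) →
    (∀ a a', H.Adj a a' → a ∈ P ∧ a' ∈ P) → (∀ a ∈ P, ∀ a' ∈ P, H.Reachable a a') →
    ∀ a0 ∈ P, ∀ (k : ℕ) (S : Finset V), a0 ∈ S →
    J G ε hN (fun _ S' => P.biUnion B ⊆ S') k a0 S ≤ 2 * P.card * (c1 + c2)

/-- NET. Separated nets. PROOF: a maximal set containing `v0` with pairwise distances at least `r` (`r ≥ 1`). (4): `H` joins
distinct points of `P` at distance at most `2 r`: follow a walk of `G` from `a` to `a'` and take for every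
vertex a point of `P` at distance `< r` (`a`, `a'` for the end points); consecutive ones are at distance
`≤ (r-1) + 1 + (r-1)`. -/
def S_NET : Prop :=
  ∀ (V : Type) [Fintype V] [DecidableEq V] (G : SimpleGraph V), G.Connected → ∀ (v0 : V) (r : ℕ), 1 ≤ r →
    ∃ (P : Finset V), v0 ∈ P ∧ (∀ a ∈ P, ∀ a' ∈ P, a ≠ a' → r ≤ G.dist a a') ∧
      (∀ x, ∃ a ∈ P, G.dist x a < r) ∧
      ∃ H : SimpleGraph V, (∀ a a', H.Adj a a' ↔ a ≠ a' ∧ a ∈ P ∧ a' ∈ P ∧ G.dist a a' ≤ 2 * r) ∧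
        ∀ a ∈ P, ∀ a' ∈ P, H.Reachable a a'

/-- PACK. Packing. PROOF: the balls of radius `t` around the points of `P` are disjoint (`2 t < r`) and contained in
`ball G a (R + t)`. -/
def S_PACK : Prop :=
  ∀ (V : Type) [Fintype V] [DecidableEq V] (G : SimpleGraph V), G.Connected →
    ∀ (P : Finset V) (r t : ℕ), 2 * t < r → (∀ a ∈ P, ∀ a' ∈ P, a ≠ a' → r ≤ G.dist a a') →
    ∀ q : ℕ, (∀ x, q ≤ (ball G x t).card) → ∀ (a : V) (R : ℕ), P ⊆ ball G a R →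
    P.card * q ≤ (ball G a (R + t)).card

/-- BALLS. (1) `|B(x, r)| ≤ (Δ+1)^r`: `B(x, r+1)` is contained in the union over `z ∈ B(x, r)` of `{z}` and the
neighbours of `z`. (2) If `|B(x, r)| ≤ v` for all `x` then `|B(x, m r)| ≤ v ^ m`: every `y` with
`dist x y ≤ m r + r` has a `z` with `dist x z ≤ m r` and `dist z y ≤ r` (a point of a shortest walk). -/
def S_BALLS : Prop :=
  ∀ (V : Type) [Fintype V] [DecidableEq V] (G : SimpleGraph V) [DecidableRel G.Adj], G.Connected →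
    (∀ Δ : ℕ, (∀ v, G.degree v ≤ Δ) → ∀ x r, (ball G x r).card ≤ (Δ + 1) ^ r) ∧
    (∀ r v : ℕ, (∀ x, (ball G x r).card ≤ v) → ∀ x m, (ball G x (m * r)).card ≤ v ^ m)

/-- FAR. The far field. PROOF from BALLS (2): put `r = 16 ρ` and `m = dist a x / r` (natural division). The number of
the `x` with given `m` is at most `|B(a, (m+1) r)| ≤ v ^ (m+1)`, and for `m ≥ 1` the summand is at most
`b ^ (m r - 6 ρ)`. Since `v ^ 8 * b ^ (16 ρ) ≤ 1`: `(v ^ m * b ^ (16 m ρ - 6 ρ)) ^ 8 = (v ^ 8) ^ m * b ^ (8 (16 m - 6) ρ)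
≤ b ^ (8 (16 m - 6) ρ - 16 m ρ) ≤ b ^ (8 m)`, so `v ^ m * b ^ (m r - 6 ρ) ≤ b ^ m` (8th roots:
`pow_le_pow_left₀` / `le_of_pow_le_pow_left₀`). So the sum over the `x` with given `m` is at most `v * b ^ m` (also
for `m = 0`), and `∑ m, b ^ m ≤ 1 / (1 - b)`. -/
def S_FAR : Prop :=
  ∀ (V : Type) [Fintype V] [DecidableEq V] (G : SimpleGraph V) [DecidableRel G.Adj], G.Connected →
    ∀ (b : ℝ), 0 < b → b < 1 → ∀ (ρ v : ℕ), 1 ≤ ρ → (∀ x, (ball G x (16 * ρ)).card ≤ v) →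
    (v : ℝ) ^ 8 * b ^ (16 * ρ) ≤ 1 → ∀ a : V, ∑ x, b ^ (G.dist x a - 6 * ρ) ≤ v / (1 - b)

/-- SCALE. The choice of the scale. PROOF. Put `D = 2 * d`. `r ^ (16 D) * b ^ r` is bounded by some `Q ≥ 1` for `r : ℕ`
(it tends to `0`: `tendsto_pow_const_mul_const_pow_of_abs_lt_one`). Put `c0 = min (1 / Q) (1 / 16 ^ D)`, so that
`(c0 * r ^ D) ^ 16 * b ^ r ≤ c0 * Q ≤ 1` (as `c0 ≤ 1`). Let `r1 ≥ 16` be least such that
`|B(x, r1)| < c0 * r1 ^ D` for all `x` (exists since `|B| ≤ |V|` and `D ≥ 1`), `v = sup_x |B(x, r1)|`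
(`Finset.sup univ`), `ρ = r1 / 16`, so `16 ρ ≤ r1 < 32 ρ`, `1 ≤ v < c0 * r1 ^ D`. Then `v ^ 16 * b ^ r1 ≤ 1` and
`(v ^ 8 * b ^ (16 ρ)) ^ 2 = v ^ 16 * b ^ (32 ρ) ≤ v ^ 16 * b ^ r1 ≤ 1`. For `1 ≤ r < r1` some `x` has
`|B(x, r)| ≥ c0 * r ^ D` (minimality if `r ≥ 16`; `|B| ≥ 1 ≥ (r/16) ^ D` if `r < 16`), hence
`|B(y, K r)| ≥ (c0 / K) * r ^ D` for ALL `y`. So for all `y` and `s ≤ ρ`: `|B(y, s)| ≥ c1 * s ^ D` with
`c1 = (c0 / K) / (2 K) ^ D` (take `r = s / K`, natural division, if `s ≥ K`, then `r ≥ s / (2 K)`; if `s < K`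
use `|B| ≥ 1`). Put `c = c1 / 256 ^ D`. Fourth: `s = 2 ^ j / 4 = 2 ^ (j-2)` for `j ≥ 2` gives
`c1 * 2 ^ ((j-2) D) = (c1 / 4 ^ D) * 4 ^ (j d)`; for `j < 2` use `|B| ≥ 1` and `4 ^ (j d) ≤ 4 ^ D`. Fifth:
`v ≤ (32 ρ) ^ D`; if `ρ ≥ 4` then `ρ / 4 ≥ ρ / 8` (real) and `|B(x, ρ/4)| ≥ c1 (ρ/8) ^ D = (c1 / 256 ^ D) (32 ρ) ^ D`; if
`ρ < 4` then `c * v ≤ 128 ^ D / 256 ^ D ≤ 1`. (`K ≥ 1` because balls are not empty; `V` is not empty.) -/
def S_SCALE : Prop :=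
  ∀ (b : ℝ), 0 < b → b < 1 → ∀ (K d : ℕ), 1 ≤ d → ∃ c : ℝ, 0 < c ∧ c ≤ 1 ∧
    ∀ (V : Type) [Fintype V] [DecidableEq V] (G : SimpleGraph V), G.Connected →
    (∀ x y r, (ball G x r).card ≤ K * (ball G y (K * r)).card) →
    ∃ ρ v : ℕ, 1 ≤ ρ ∧ (∀ x, (ball G x (16 * ρ)).card ≤ v) ∧ (v : ℝ) ^ 8 * b ^ (16 * ρ) ≤ 1 ∧
      (∀ x j, 2 ^ j ≤ ρ → c * 4 ^ (j * d) ≤ ((ball G x (2 ^ j / 4)).card : ℝ)) ∧
      (∀ x, c * v ≤ ((ball G x (ρ / 4)).card : ℝ))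

/-- LINK. Hierarchical links. PROOF from NET and PACK. For `j ≥ 1` let `P j` be a net with `r = 2 ^ j` (NET), and `ν j : V → V`
with `ν j x ∈ P j`, `dist x (ν j x) < 2 ^ j`. For `v ∈ A` put `p 0 v = v`, `p (j+1) v = ν (j+1) (p j v)`. Then
`dist v (p j v) ≤ 2 ^ (j+1) - 2 ≤ 2 ρ` for `j ≤ J`, so `p j v ∈ ball a (5 ρ)`. For vertices `x, y` let `geo x y` be
the set of the vertices of a shortest walk (`dist x y + 1` vertices, `exists_walk_length_eq_dist`). `L j`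
for `j < J` is the union over `u ∈ p j '' A` of `geo u (ν (j+1) u)`, `L J` is the union over `u ∈ p J '' A` of
`geo u a`. `m = (A.image (p j)).card`. Sizes: `2 ^ (j+1)` vertices per geodesic for `j < J`, `5 ρ + 1 ≤ 11 * 2 ^ J`
for `j = J` (`ρ < 2 ^ (J+1)`). All are in `ball a (6 ρ)` (points of a geodesic from `u ∈ ball a (5 ρ)` of
length `< 2 ^ (j+1) ≤ 2 ^ J ≤ ρ`, resp. a geodesic from `u` to `a`). `m * q ≤ ...`: PACK with `t = 2 ^ j / 4` for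
the set `p j '' A ⊆ ball a (5 ρ)`, with distances `≥ 2 ^ j` (for `j = 0`: distinct points have distance `≥ 1`);
`5 ρ + 2 ^ j / 4 ≤ 6 ρ`. Last part: along the geodesics `|f (p j v) - f (p (j+1) v)| ≤ 2 ^ (j+1) * I / 4 ^ j` for `j < J`
and `|f (p J v) - f a| ≤ 5 ρ * I / 4 ^ J ≤ 10 I`; the sum of `2 ^ (j+1) / 4 ^ j` is at most `4`. -/
def S_LINK : Prop :=
  ∀ (V : Type) [Fintype V] [DecidableEq V] (G : SimpleGraph V), G.Connected →
    ∀ (a : V) (ρ J : ℕ), 2 ^ J ≤ ρ → ρ < 2 ^ (J + 1) → ∀ A : Finset V, A ⊆ ball G a (3 * ρ) → A.Nonempty →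
    ∃ L : ℕ → Finset V,
      (∀ j ≤ J, (L j).Nonempty ∧ L j ⊆ ball G a (6 * ρ) ∧
        ∃ m : ℕ, (L j).card ≤ 11 * 2 ^ j * m ∧ m ≤ A.card ∧
          ∀ q : ℕ, (∀ x, q ≤ (ball G x (2 ^ j / 4)).card) → m * q ≤ (ball G a (6 * ρ)).card) ∧
      ∀ (f : V → ℝ) (I : ℝ), 0 ≤ I →
        (∀ j ≤ J, ∀ x ∈ L j, ∀ y ∈ L j, G.Adj x y → f x - f y ≤ I / 4 ^ j) →
        ∀ v ∈ A, f v - f a ≤ 14 * I ∧ f a - f v ≤ 14 * I

/-- WEIGHT. The boosted weights. PROOF. `w x` is the maximum of `2 ^ j * b ^ dist x z` over the pairs `(j, z)`, `j ≤ J`,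
`z ∈ L j` (`Finset.sup'` over a sigma / product finset). Ratio: `dist y z ≤ dist x z + 1`. Sum: for every `x` there is a
pair with `w x = 2 ^ j * b ^ dist x z`; if `dist x z ≤ i j` then `w x ^ 2 ≤ 4 ^ j`, otherwise
`w x ^ 2 = 4 ^ j * b ^ dist * b ^ dist ≤ 4 ^ j * b ^ (i j) * b ^ (dist x a - r)`, because
`dist x a ≤ dist x z + dist z a ≤ dist x z + r`. So `w x ^ 2 ≤ ∑ j ≤ J, 4 ^ j * (1[∃ z ∈ L j, dist x z ≤ i j] +
b ^ i j * b ^ (dist x a - r))`, and the number of the `x` with `∃ z ∈ L j, dist x z ≤ i j` is at most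
`(L j).card * (Δ + 1) ^ i j` (BALLS (1)). -/
def S_WEIGHT : Prop :=
  ∀ (V : Type) [Fintype V] [DecidableEq V] (G : SimpleGraph V) [DecidableRel G.Adj], G.Connected →
    ∀ (Δ : ℕ), (∀ v, G.degree v ≤ Δ) → ∀ (b : ℝ), 0 < b → b < 1 → ∀ (J : ℕ) (L : ℕ → Finset V),
    (∀ j ≤ J, (L j).Nonempty) →
    ∃ w : V → ℝ, (∀ x, 0 < w x) ∧ (∀ x y, G.Adj x y → b * w x ≤ w y) ∧
      (∀ j ≤ J, ∀ z ∈ L j, (2 : ℝ) ^ j ≤ w z) ∧
      ∀ (i : ℕ → ℕ) (a : V) (r : ℕ), (∀ j ≤ J, L j ⊆ ball G a r) →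
        ∑ x, w x ^ 2 ≤ ∑ j ∈ range (J + 1),
          (4 : ℝ) ^ j * ((L j).card * ((Δ : ℝ) + 1) ^ i j + b ^ i j * ∑ x, b ^ (G.dist x a - r))

/-- ARITH. PROOF. `m j ^ 2 * (16 M^4)^s * c * 4 ^ (j d) ≤ v ^ 2` (multiply the two hypotheses), so with `c ≤ 1`:
`m j * (4 M^2)^s * 2 ^ (j d) ≤ v / c` (square roots). As `16 * M ^ p ≤ 2 ^ d` and `b ^ p ≤ 1/8`, the `j`-th
summand is at most `11 * (v / c) * (1/2)^j * (1/4)^s + (1/2)^j * b ^ s * N`; `∑ (1/2)^j ≤ 2`, and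
`(1/4)^s, b^s ≤ g^s`. -/
def S_ARITH : Prop :=
  ∀ (b g c N : ℝ) (M p d s J : ℕ) (v : ℕ) (m l : ℕ → ℕ), 0 < b → b < 1 → 1 / 4 ≤ g → b ≤ g → 0 < c → c ≤ 1 →
    0 ≤ N → 1 ≤ M → b ^ p ≤ 1 / 8 → 16 * M ^ p ≤ 2 ^ d →
    (∀ j ≤ J, l j ≤ 11 * 2 ^ j * m j ∧ m j * (16 * M ^ 4) ^ s ≤ v ∧ (m j : ℝ) * (c * 4 ^ (j * d)) ≤ v) →
    ∑ j ∈ range (J + 1), (4 : ℝ) ^ j * (l j * (M : ℝ) ^ (p * j + s) + b ^ (p * j + s) * N)
      ≤ (22 * v / c + 2 * N) * g ^ s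

/-- FINAL -/
def S_FINAL : Prop :=
  ∀ ε : ℝ, 0 < ε → ε < 1 → ∀ Δ K : ℕ, ∃ C : ℝ, 0 < C ∧
    ∀ (V : Type) [Fintype V] [DecidableEq V] (G : SimpleGraph V) [DecidableRel G.Adj],
      ∀ (hN : ∀ x, (G.neighborFinset x).Nonempty), G.Connected → (∀ v : V, G.degree v ≤ Δ) →
      (∀ x y r, (ball G x r).card ≤ K * (ball G y (K * r)).card) →
      ∀ v₀ k, J G ε hN (fun _ S => S = Finset.univ) k v₀ {v₀} ≤ C * Fintype.card V

end Pool.Agent.H576.CT
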