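import Mathlib
import Pool.Agent.H576.CT.Stm

/-! Assembly of the project CT. -/

set_option autoImplicit false
set_option linter.unusedSectionVars false

namespace Pool.Agent.H576.CT

open Finset Pool.Agent.TH112.BW

theorem ball_mono {V : Type} [Fintype V] (G : SimpleGraph V) (x : V) {r s : ℕ} (h : r ≤ s) :
    ball G x r ⊆ ball G x s := by
  intro y hy
  simp only [ball, mem_filter, mem_univ, true_and] at hy ⊢
  exact hy.trans h

theorem mem_ball {V : Type} [Fintype V] (G : SimpleGraph V) (x y : V) (r : ℕ) :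
    y ∈ ball G x r ↔ G.dist x y ≤ r := by
  simp [ball]

theorem tot_sq {V : Type} [Fintype V] [DecidableEq V] (G : SimpleGraph V) [DecidableRel G.Adj]
    (b : ℝ) (hb0 : 0 < b) (Δ : ℕ) (hΔ : ∀ v, G.degree v ≤ Δ) (w : V → ℝ) (hw : ∀ x, 0 < w x)
    (hr : ∀ x y, G.Adj x y → b * w x ≤ w y) :
    tot G w ≤ Δ / b * ∑ x, w x ^ 2 := by
  unfold tot
  rw [Finset.mul_sum]
  refine Finset.sum_le_sum fun x _ => ?_
  have h1 : dg G w x ≤ Δ * (w x / b) := by
    unfold dg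
    calc ∑ y ∈ G.neighborFinset x, w y ≤ ∑ y ∈ G.neighborFinset x, w x / b := by
          refine Finset.sum_le_sum fun y hy => ?_
          have hxy : G.Adj x y := by simpa using hy
          rw [le_div_iff₀ hb0, mul_comm]
          exact hr y x hxy.symm
      _ = (G.degree x : ℝ) * (w x / b) := by
          rw [Finset.sum_const, G.card_neighborFinset_eq_degree, nsmul_eq_mul]
      _ ≤ Δ * (w x / b) :=
          mul_le_mul_of_nonneg_right (by exact_mod_cast hΔ x) (div_nonneg (hw x).le hb0.le)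
  calc w x * dg G w x ≤ w x * (Δ * (w x / b)) := mul_le_mul_of_nonneg_left h1 (hw x).le
    _ = Δ / b * w x ^ 2 := by ring

/-- the networks of a block -/
theorem block (hlink : S_LINK) (hweight : S_WEIGHT) (harith : S_ARITH) (hfar : S_FAR)
    (b ε c : ℝ) (hb0 : 0 < b) (hb1 : b < 1) (hbe : b ^ 2 = 1 - ε) (hc0 : 0 < c) (hc1 : c ≤ 1)
    (Δ p d : ℕ) (hp : b ^ p ≤ 1 / 8) (hd : 16 * (Δ + 1) ^ p ≤ 2 ^ d)
    (g : ℝ) (hg4 : 1 / 4 ≤ g) (hgb : b ≤ g)
    (V : Type) [Fintype V] [DecidableEq V] (G : SimpleGraph V) [DecidableRel G.Adj]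
    (hG : G.Connected) (hΔ : ∀ v, G.degree v ≤ Δ) (ρ v : ℕ) (hρ : 1 ≤ ρ)
    (hv1 : ∀ x, (ball G x (16 * ρ)).card ≤ v) (hv2 : (v : ℝ) ^ 8 * b ^ (16 * ρ) ≤ 1)
    (hv3 : ∀ x j, 2 ^ j ≤ ρ → c * 4 ^ (j * d) ≤ ((ball G x (2 ^ j / 4)).card : ℝ))
    (a : V) (s : ℕ) (A : Finset V) (hA : A ⊆ ball G a (3 * ρ)) (hAn : A.Nonempty)
    (hAs : A.card * (16 * (Δ + 1) ^ 4) ^ s ≤ v) :
    ∃ w : V → ℝ, Adm G ε w ∧ (∀ u ∈ A, Res G w u a 14) ∧
      tot G w ≤ Δ / b * (22 * v / c + 2 * (v / (1 - b))) * g ^ s := by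
  classical
  have hρ0 : ρ ≠ 0 := by omega
  obtain ⟨L, hL, hf⟩ := hlink V G hG a ρ (Nat.log 2 ρ) (Nat.pow_log_le_self 2 hρ0)
    (Nat.lt_pow_succ_log_self (by norm_num) ρ) A hA hAn
  set J0 := Nat.log 2 ρ with hJ0
  have hJρ : 2 ^ J0 ≤ ρ := Nat.pow_log_le_self 2 hρ0
  obtain ⟨w, hw0, hwr, hwL, hsum⟩ := hweight V G hG Δ hΔ b hb0 hb1 J0 L (fun j hj => (hL j hj).1)
  refine ⟨w, ⟨hw0, ?_⟩, ?_, ?_⟩
  · intro x y z hxy hxz
    have h1 := hwr z x hxz.symm
    have h2 := hwr x y hxy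
    rw [← hbe]
    calc b ^ 2 * w z = b * (b * w z) := by ring
      _ ≤ b * w x := mul_le_mul_of_nonneg_left h1 hb0.le
      _ ≤ w y := h2
  · intro u hu f I hI hfl
    refine hf f I hI ?_ u hu
    intro j hj x hx y hy hxy
    have h4 : (0 : ℝ) < 4 ^ j := by positivity
    rcases le_or_gt (f x - f y) 0 with hneg | hpos
    · exact hneg.trans (div_nonneg hI h4.le)
    · rw [le_div_iff₀ h4]
      have h1 := hwL j hj x hx
      have h2 := hwL j hj y hy
      have h3 : (4 : ℝ) ^ j ≤ w x * w y := by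
        calc (4 : ℝ) ^ j = 2 ^ j * 2 ^ j := by rw [← mul_pow]; norm_num
          _ ≤ w x * w y := mul_le_mul h1 h2 (by positivity) (hw0 x).le
      have h5 := hfl x y hxy
      calc (f x - f y) * 4 ^ j = 4 ^ j * (f x - f y) := by ring
        _ ≤ w x * w y * (f x - f y) := mul_le_mul_of_nonneg_right h3 hpos.le
        _ ≤ I := h5
  · have h1 := tot_sq G b hb0 Δ hΔ w hw0 hwr
    have h2 := hsum (fun j => p * j + s) a (6 * ρ) (fun j hj => (hL j hj).2.1)
    have hm : ∀ j, ∃ m : ℕ, j ≤ J0 → (L j).card ≤ 11 * 2 ^ j * m ∧ m ≤ A.card ∧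
          ∀ q : ℕ, (∀ x, q ≤ (ball G x (2 ^ j / 4)).card) → m * q ≤ (ball G a (6 * ρ)).card := by
      intro j
      by_cases hj : j ≤ J0
      · obtain ⟨m, hm⟩ := (hL j hj).2.2
        exact ⟨m, fun _ => hm⟩
      · exact ⟨0, fun h => absurd h hj⟩
    choose m hm using hm
    set N : ℝ := ∑ x, b ^ (G.dist x a - 6 * ρ) with hN
    have hN0 : 0 ≤ N := Finset.sum_nonneg fun x _ => pow_nonneg hb0.le _
    have hNle : N ≤ v / (1 - b) := hfar V G hG b hb0 hb1 ρ v hρ hv1 hv2 a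
    have h3 := harith b g c N (Δ + 1) p d s J0 v m (fun j => (L j).card) hb0 hb1 hg4 hgb hc0 hc1 hN0
      (by omega) hp hd (by
        intro j hj
        obtain ⟨e1, e2, e3⟩ := hm j hj
        refine ⟨e1, (Nat.mul_le_mul_right _ e2).trans hAs, ?_⟩
        have hjρ : 2 ^ j ≤ ρ := (Nat.pow_le_pow_right (by norm_num) hj).trans hJρ
        have e4 := e3 ⌈c * 4 ^ (j * d)⌉₊ (fun x => Nat.ceil_le.mpr (hv3 x j hjρ))
        have e5 : m j * ⌈c * 4 ^ (j * d)⌉₊ ≤ v :=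
          e4.trans ((Finset.card_le_card (ball_mono G a (by omega))).trans (hv1 a))
        have e6 : ((m j : ℝ)) * (⌈c * 4 ^ (j * d)⌉₊ : ℝ) ≤ v := by exact_mod_cast e5
        exact (mul_le_mul_of_nonneg_left (Nat.le_ceil _) (Nat.cast_nonneg _)).trans e6)
    have h4 : ∑ x, w x ^ 2 ≤ (22 * v / c + 2 * N) * g ^ s := by
      refine h2.trans (le_trans (le_of_eq ?_) h3)
      refine Finset.sum_congr rfl fun j _ => ?_
      push_cast
      rfl
    have hg0 : 0 ≤ g := by linarith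
    calc tot G w ≤ Δ / b * ∑ x, w x ^ 2 := h1
      _ ≤ Δ / b * ((22 * v / c + 2 * (v / (1 - b))) * g ^ s) := by
          refine mul_le_mul_of_nonneg_left (h4.trans ?_) (by positivity)
          exact mul_le_mul_of_nonneg_right (by linarith) (pow_nonneg hg0 _)
      _ = _ := by ring

theorem geo_le (g : ℝ) (hg0 : 0 ≤ g) (hg1 : g < 1) (n : ℕ) : ∑ s ∈ range n, g ^ s ≤ 1 / (1 - g) := by
  rw [le_div_iff₀ (by linarith)]
  have h := geom_sum_mul g n
  have h2 : 0 ≤ g ^ n := pow_nonneg hg0 n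
  nlinarith

theorem final_of (hcover : S_COVER) (hmove : S_MOVE) (htour : S_TOUR) (hnet : S_NET) (hpack : S_PACK)
    (hfar : S_FAR) (hscale : S_SCALE) (hlink : S_LINK) (hweight : S_WEIGHT) (harith : S_ARITH) :
    S_FINAL := by
  intro ε hε0 hε1 Δ K
  obtain ⟨b, hb0, hb1, hbe⟩ : ∃ b : ℝ, 0 < b ∧ b < 1 ∧ b ^ 2 = 1 - ε := by
    refine ⟨Real.sqrt (1 - ε), Real.sqrt_pos.mpr (by linarith), ?_, Real.sq_sqrt (by linarith)⟩
    rw [Real.sqrt_lt' one_pos, one_pow]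
    linarith
  obtain ⟨p, hp⟩ := exists_pow_lt_of_lt_one (show (0 : ℝ) < 1 / 8 by norm_num) hb1
  obtain ⟨d, hd1, hd⟩ : ∃ d : ℕ, 1 ≤ d ∧ 16 * (Δ + 1) ^ p ≤ 2 ^ d :=
    ⟨16 * (Δ + 1) ^ p, by have : 0 < (Δ + 1) ^ p := by positivity
                          omega, (Nat.lt_two_pow_self).le⟩
  obtain ⟨g, hg4, hgb, hg1⟩ : ∃ g : ℝ, 1 / 4 ≤ g ∧ b ≤ g ∧ g < 1 :=
    ⟨max (1 / 4) b, le_max_left _ _, le_max_right _ _, max_lt (by norm_num) hb1⟩
  have hg0 : 0 ≤ g := by linarith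
  obtain ⟨c, hc0, hc1, hsc⟩ := hscale b hb0 hb1 K d hd1
  set D : ℝ := Δ / b * (22 / c + 2 / (1 - b)) with hD
  have h1b : 0 < 1 - b := by linarith
  have h1g : 0 < 1 - g := by linarith
  have hD0 : 0 ≤ D := by positivity
  set E : ℕ := 16 * (Δ + 1) ^ 4 with hE
  refine ⟨2 * (E * 14 * (D / (1 - g)) + 14 * D) / c + 1, by positivity, ?_⟩
  intro V _ _ G _ hN hG hΔ hK v₀ k
  obtain ⟨ρ, v, hρ, hv1, hv2, hv3, hv4⟩ := hsc V G hG hK
  have hvb : ∀ (r : ℕ), r ≤ 16 * ρ → ∀ x, (ball G x r).card ≤ v := fun r hr x =>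
    (Finset.card_le_card (ball_mono G x hr)).trans (hv1 x)
  have hvpos : 1 ≤ v := by
    refine le_trans ?_ (hv1 v₀)
    exact Finset.card_pos.mpr ⟨v₀, by rw [mem_ball]; simp⟩
  have hblock := fun (a : V) (s : ℕ) (A : Finset V) => block hlink hweight harith hfar b ε c hb0 hb1 hbe hc0 hc1
    Δ p d hp.le hd g hg4 hgb V G hG hΔ ρ v hρ hv1 hv2 hv3 a s A
  have hTeq : ∀ s : ℕ, Δ / b * (22 * (v : ℝ) / c + 2 * (v / (1 - b))) * g ^ s = D * v * g ^ s := by
    intro s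
    rw [hD]
    ring
  have hE2 : 2 ≤ E := by
    have : 0 < (Δ + 1) ^ 4 := by positivity
    omega
  have hcov : ∀ a : V, ∀ (k : ℕ) (S : Finset V), a ∈ S →
      J G ε hN (Dt a (S ∪ ball G a ρ)) k a S ≤ E * 14 * (D / (1 - g)) * v := by
    intro a k S haS
    have h1 := hcover V G ε hε0.le hε1.le hN hG a 14 (by norm_num) (ball G a ρ) E v hE2
      (hvb ρ (by omega) a) (fun s => D * v * g ^ s)
      (fun s => mul_nonneg (mul_nonneg hD0 (Nat.cast_nonneg _)) (pow_nonneg hg0 _))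
      (by
        intro s A hA _ hAn hAs
        obtain ⟨w, e1, e2, e3⟩ := hblock a s A (hA.trans (ball_mono G a (by omega))) hAn hAs
        exact ⟨w, e1, e2, by rw [← hTeq]; exact e3⟩)
      k S haS
    refine h1.trans ?_
    rw [← Finset.mul_sum]
    have h2 := geo_le g hg0 hg1 (v + 1)
    have h3 : D * v * ∑ s ∈ range (v + 1), g ^ s ≤ D * v * (1 / (1 - g)) :=
      mul_le_mul_of_nonneg_left h2 (mul_nonneg hD0 (Nat.cast_nonneg _))
    calc (E : ℝ) * 14 * (D * v * ∑ s ∈ range (v + 1), g ^ s)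
        ≤ E * 14 * (D * v * (1 / (1 - g))) := mul_le_mul_of_nonneg_left h3 (by positivity)
      _ = _ := by ring
  obtain ⟨P, hv0P, hPsep, hPcov, H, hH, hHr⟩ := hnet V G hG v₀ ρ hρ
  have hmov : ∀ a a', H.Adj a a' → ∀ (k : ℕ) (S : Finset V), a ∈ S →
      J G ε hN (Dt a' S) k a S ≤ 14 * D * v := by
    intro a a' haa k S haS
    rw [hH] at haa
    obtain ⟨w, e1, e2, e3⟩ := hblock a 0 {a'} (by
        intro x hx
        rw [Finset.mem_singleton] at hx
        rw [hx, mem_ball]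
        have := haa.2.2.2
        omega) (Finset.singleton_nonempty _) (by simpa using hvpos)
    rw [hTeq, pow_zero, mul_one] at e3
    have h1 := hmove V G ε hε0.le hε1.le hN hG w e1 a a' 14 (by norm_num) (e2 a' (Finset.mem_singleton_self _))
      k S haS
    calc J G ε hN (Dt a' S) k a S ≤ 14 * tot G w := h1
      _ ≤ 14 * (D * v) := by linarith
      _ = _ := by ring
  have htr := htour V G ε hε0.le hε1.le hN P (fun a => ball G a ρ) H (E * 14 * (D / (1 - g)) * v) (14 * D * v)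
    (by positivity) (by positivity) (fun a _ => hcov a) hmov
    (fun a a' h => by rw [hH] at h; exact ⟨h.2.1, h.2.2.1⟩) hHr v₀ hv0P k {v₀} (Finset.mem_singleton_self _)
  have hP : (P.card : ℝ) * (c * v) ≤ Fintype.card V := by
    have h1 := hpack V G hG P ρ (ρ / 4) (by omega) hPsep ⌈c * v⌉₊ (fun x => Nat.ceil_le.mpr (hv4 x)) v₀
      (univ.sup (fun x => G.dist v₀ x)) (by
        intro x _
        rw [mem_ball]
        exact Finset.le_sup (f := fun x => G.dist v₀ x) (Finset.mem_univ x))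
    have h2 : P.card * ⌈c * v⌉₊ ≤ Fintype.card V := h1.trans (Finset.card_le_univ _)
    have h3 : (P.card : ℝ) * (⌈c * v⌉₊ : ℝ) ≤ Fintype.card V := by exact_mod_cast h2
    exact (mul_le_mul_of_nonneg_left (Nat.le_ceil _) (Nat.cast_nonneg _)).trans h3
  have hanti : J G ε hN (fun _ S => S = Finset.univ) k v₀ {v₀}
      ≤ J G ε hN (fun _ S' => P.biUnion (fun a => ball G a ρ) ⊆ S') k v₀ {v₀} := by
    refine J_anti hε0.le hε1.le hN _ _ ?_ k v₀ {v₀}
    intro x S hS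
    rw [Finset.eq_univ_iff_forall]
    intro y
    obtain ⟨a, ha, hya⟩ := hPcov y
    refine hS (Finset.mem_biUnion.mpr ⟨a, ha, ?_⟩)
    rw [mem_ball, SimpleGraph.dist_comm]
    exact hya.le
  refine hanti.trans (htr.trans ?_)
  have hX : 0 ≤ E * 14 * (D / (1 - g)) + 14 * D := by positivity
  have h4 : 2 * (P.card : ℝ) * (E * 14 * (D / (1 - g)) * v + 14 * D * v)
      = (2 * (E * 14 * (D / (1 - g)) + 14 * D) / c) * (P.card * (c * v)) := by
    field_simp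
  rw [h4]
  have h5 : (2 * (E * 14 * (D / (1 - g)) + 14 * D) / c) * (P.card * (c * v))
      ≤ (2 * (E * 14 * (D / (1 - g)) + 14 * D) / c) * Fintype.card V :=
    mul_le_mul_of_nonneg_left hP (by positivity)
  have h6 : (0 : ℝ) ≤ Fintype.card V := Nat.cast_nonneg _
  linarith

end Pool.Agent.H576.CT
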