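import Mathlib
import Pool.Agent.H576.CT.Final

/-! From the value iteration to a strategy. -/

set_option autoImplicit false
set_option linter.unusedSectionVars false

namespace Pool.Agent.H576.CT

open Finset Pool.Agent.TH112.BW

theorem main_of (h : S_FINAL) :
  ∀ ε : ℝ, 0 < ε → ε < 1 → ∀ Δ K : ℕ, ∃ C : ℝ, 0 < C ∧
    ∀ (V : Type) [Fintype V] [DecidableEq V] (G : SimpleGraph V) [DecidableRel G.Adj],
      2 ≤ Fintype.card V → G.Connected → (∀ v : V, G.degree v ≤ Δ) →
      (∀ (x y : V) (r : ℕ), (Finset.univ.filter (fun z => G.dist x z ≤ r)).card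
          ≤ K * (Finset.univ.filter (fun z => G.dist y z ≤ K * r)).card) →
      ∀ v₀ : V, ∃ f : V → Finset V → V, (∀ (u : V) (S : Finset V), G.Adj u (f u S)) ∧
        (∑' t : ℕ, ∑ p : V × Finset V,
          (if p.2 = Finset.univ then (0 : ENNReal) else
            (Nat.rec (motive := fun _ => V × Finset V → ENNReal)
              (fun q : V × Finset V => if q = (v₀, ({v₀} : Finset V)) then (1 : ENNReal) else 0)
              (fun (_ : ℕ) (μ : V × Finset V → ENNReal) (q : V × Finset V) =>
                ∑ r : V × Finset V, μ r *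
                  (if G.Adj r.1 q.1 ∧ q.2 = insert q.1 r.2 then
                    ENNReal.ofReal ((1 - ε) / (G.degree r.1 : ℝ) +
                      (if q.1 = f r.1 r.2 then ε else 0))
                  else 0))
              t) p))
          ≤ ENNReal.ofReal (C * (Fintype.card V : ℝ)) := by
  intro ε hε0 hε1 Δ K
  obtain ⟨C, hC, hmain⟩ := h ε hε0 hε1 Δ K
  refine ⟨C, hC, ?_⟩
  intro V _ _ G _ hcard hG hΔ hK v₀
  have hN : ∀ x, (G.neighborFinset x).Nonempty := by
    intro x
    have hnt : Nontrivial V := Fintype.one_lt_card_iff_nontrivial.mp (by omega)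
    obtain ⟨y, hy⟩ := hG.preconnected.exists_adj_of_nontrivial x
    exact ⟨y, by simpa using hy⟩
  obtain ⟨f, hf1, hf2⟩ := exists_strategy hε0.le hε1.le hN v₀ _
    (fun k => hmain V G hN hG hΔ (fun x y r => hK x y r) v₀ k)
  exact ⟨f, hf1, hf2⟩

theorem transitive_balls {V : Type} [Fintype V] [DecidableEq V] (G : SimpleGraph V)
    (hT : ∀ x y : V, ∃ φ : G ≃g G, φ x = y) (x y : V) (r : ℕ) :
    (Finset.univ.filter (fun z => G.dist x z ≤ r)).card
      ≤ 1 * (Finset.univ.filter (fun z => G.dist y z ≤ 1 * r)).card := by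
  obtain ⟨φ, hφ⟩ := hT x y
  rw [one_mul, one_mul]
  refine Finset.card_le_card_of_injOn (fun z => φ z) ?_ (fun a _ b _ hab => φ.injective hab)
  intro z hz
  have hz' : G.dist x z ≤ r := by simpa using hz
  have h1 : G.dist (φ x) (φ z) = G.dist x z := by
    apply le_antisymm
    · by_cases hr : G.Reachable x z
      · obtain ⟨p, hp⟩ := hr.exists_walk_length_eq_dist
        have := SimpleGraph.dist_le (p.map φ.toHom)
        rw [SimpleGraph.Walk.length_map, hp] at this
        exact this
      · have : ¬ G.Reachable (φ x) (φ z) := by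
          intro h
          exact hr (φ.reachable_iff.mp h)
        rw [SimpleGraph.dist_eq_zero_of_not_reachable this]
        exact Nat.zero_le _
    · by_cases hr : G.Reachable (φ x) (φ z)
      · obtain ⟨p, hp⟩ := hr.exists_walk_length_eq_dist
        have h2 := SimpleGraph.dist_le (p.map φ.symm.toHom)
        rw [SimpleGraph.Walk.length_map, hp] at h2
        simpa using h2
      · have : ¬ G.Reachable x z := by
          intro h
          exact hr (φ.reachable_iff.mpr h)
        rw [SimpleGraph.dist_eq_zero_of_not_reachable this]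
        exact Nat.zero_le _
  simp only [Finset.coe_filter, Finset.mem_univ, true_and, Set.mem_setOf_eq]
  rw [← hφ]
  rw [h1]
  exact hz'

end Pool.Agent.H576.CT
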